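import Mathlib

/-! If the ballean of small subsets of an infinite group is normal, the cardinality of the group
is regular. -/

namespace Pool.Agent.Results.MP_08c285_gt.Holds

open Set
open Cardinal hiding univ

universe u

variable {G : Type u} [Group G]

/-- the entourages -/
def Ent (G : Type u) [Group G] : Set (Set (G × G)) :=
  {E | ∃ A : Set G, #A < #G ∧ 1 ∈ A ∧ A⁻¹ = A ∧ E ⊆ {p | ∃ a ∈ A, p.2 = p.1 * a}}

/-- the set `E[S]` -/
def ball (E : Set (G × G)) (S : Set G) : Set G := {y | ∃ x ∈ S, (x, y) ∈ E}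

/-- asymptotically disjoint sets -/
def AsDisj (P Q : Set G) : Prop := ∀ E ∈ Ent G, #(ball E P ∩ ball E Q : Set G) < #G

/-- `U` is an asymptotic neighbourhood of `P` -/
def AsNbhd (U P : Set G) : Prop := ∀ E ∈ Ent G, #(ball E P \ U : Set G) < #G

/-- normality of the ballean -/
def Normal (G : Type u) [Group G] : Prop :=
  ∀ P Q : Set G, AsDisj P Q → ∃ U V : Set G, AsNbhd U P ∧ AsNbhd V Q ∧ AsDisj U V

theorem mk_cl (s : Set G) (h : s.Nonempty) : #(Subgroup.closure s) ≤ max #s ℵ₀ := by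
  have := h.to_subtype
  rw [← mk_freeGroup, FreeGroup.closure_eq_range]
  exact mk_range_le

theorem small_iU {ι α : Type u} (s : ι → Set α) {l : Cardinal.{u}} (h : ∀ i, #(s i) ≤ l) :
    #(⋃ i, s i) ≤ #ι * l :=
  (mk_iUnion_le s).trans (mul_le_mul' le_rfl (ciSup_le' h))

theorem avoid {α : Type u} {s : Set α} (h : #s < #α) : ∃ x, x ∉ s := by
  by_contra hn
  push Not at hn
  rw [eq_univ_of_forall hn, mk_univ] at h
  exact lt_irrefl _ h

theorem sidon (hG : ℵ₀ < #G) {K : Type u} (hK : #K = #G) (a b : K → G) :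
    ∃ x : K → G, Function.Injective x ∧ ∀ c : G,
      {p : K × K | p.1 ≠ p.2 ∧ b p.2 * (x p.2)⁻¹ * x p.1 * a p.1 = c}.Countable := by
  classical
  obtain ⟨_, _, ho⟩ := exists_ord_eq_type_lt K
  let Γ : K → (K → G) → Subgroup G := fun k x =>
    Subgroup.closure (x '' Iio k ∪ (a '' Iic k ∪ b '' Iic k))
  have h1 : ∀ k x, ∃ g, g ∉ Γ k x := fun k x => by
    refine avoid (s := (Γ k x : Set G)) ((mk_cl _ ⟨a k, Or.inr (Or.inl ⟨k, le_refl k, rfl⟩)⟩).trans_lt
      (max_lt ?_ hG))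
    have e1 : #(Iio k) < #G := hK ▸ mk_Iio_lt k ho
    have e2 : #(Iic k) < #G := by
      rw [← Iio_insert]
      exact mk_insert_le.trans_lt (add_lt_of_lt hG.le e1 (one_lt_aleph0.trans hG))
    exact (mk_union_le _ _).trans_lt (add_lt_of_lt hG.le (mk_image_le.trans_lt e1)
      ((mk_union_le _ _).trans_lt (add_lt_of_lt hG.le (mk_image_le.trans_lt e2)
        (mk_image_le.trans_lt e2))))
  choose g hg using h1
  let x : K → G := (wellFounded_lt (α := K)).fix fun k ih =>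
    g k fun i => if h : i < k then ih i h else 1
  have hx : ∀ k, x k ∉ Γ k x := fun k => by
    have e1 : x k = g k fun i => if i < k then x i else 1 := by
      simp only [x]
      rw [WellFounded.fix_eq]
      rfl
    have e2 : Γ k x = Γ k fun i => if i < k then x i else 1 := by
      simp only [Γ]
      congr 2
      exact image_congr fun i hi => (if_pos hi).symm
    rw [e2, e1]
    exact hg _ _
  have mx : ∀ {i k}, i < k → x i ∈ Γ k x := fun h => Subgroup.subset_closure (Or.inl ⟨_, h, rfl⟩)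
  have ma : ∀ {i k}, i ≤ k → a i ∈ Γ k x := fun h =>
    Subgroup.subset_closure (Or.inr (Or.inl ⟨_, h, rfl⟩))
  have mb : ∀ {i k}, i ≤ k → b i ∈ Γ k x := fun h =>
    Subgroup.subset_closure (Or.inr (Or.inr ⟨_, h, rfl⟩))
  have tri : ∀ {R : K → K → Prop}, (∀ i j, R i j → R j i) → (∀ i j, i < j → ¬ R i j) →
      ∀ i j, R i j → i = j := fun h1 h2 i j h => by
    rcases lt_trichotomy i j with h3 | h3 | h3
    · exact absurd h (h2 i j h3)
    · exact h3
    · exact absurd (h1 i j h) (h2 j i h3)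
  have ia : ∀ i j, x i * a i = x j * a j → i = j := tri (fun _ _ h => h.symm) fun i j hij h =>
    hx j (by
      rw [← mul_inv_eq_iff_eq_mul.2 h]
      exact mul_mem (mul_mem (mx hij) (ma hij.le)) (inv_mem (ma le_rfl)))
  have ib : ∀ i j, b i * (x i)⁻¹ = b j * (x j)⁻¹ → i = j := tri (fun _ _ h => h.symm)
    fun i j hij h => hx j (by
      have : x j = x i * (b i)⁻¹ * b j := by
        rw [← inv_inj, mul_inv_rev, mul_inv_rev, inv_inv, h, inv_mul_cancel_left]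
      rw [this]
      exact mul_mem (mul_mem (mx hij) (inv_mem (mb hij.le))) (mb le_rfl))
  refine ⟨x, fun i j => tri (R := fun i j => x i = x j) (fun _ _ h => h.symm)
    (fun i j hij h => hx j (h ▸ mx hij)) i j, fun c => ?_⟩
  have s1 : {p : K × K | p.2 < p.1 ∧ b p.2 * (x p.2)⁻¹ * x p.1 * a p.1 = c}.Subsingleton := by
    rintro ⟨i, j⟩ ⟨h1, h2⟩ ⟨i', j'⟩ ⟨h3, h4⟩
    obtain rfl : i = i' := tri (R := fun i i' => ∃ j j', j < i ∧ j' < i' ∧
      b j * (x j)⁻¹ * x i * a i = b j' * (x j')⁻¹ * x i' * a i')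
      (fun _ _ ⟨j, j', e1, e2, e3⟩ => ⟨j', j, e2, e1, e3.symm⟩)
      (fun i i' hi ⟨j, j', e1, e2, e3⟩ => hx i' (by
        have : x i' = x j' * (b j')⁻¹ * (b j * (x j)⁻¹ * x i * a i) * (a i')⁻¹ := by
          rw [e3]
          group
        rw [this]
        exact mul_mem (mul_mem (mul_mem (mx e2) (inv_mem (mb e2.le)))
          (mul_mem (mul_mem (mul_mem (mb (e1.trans hi).le) (inv_mem (mx (e1.trans hi)))) (mx hi))
            (ma hi.le))) (inv_mem (ma le_rfl)))) i i' ⟨j, j', h1, h3, h2.trans h4.symm⟩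
    rw [ib j j' (mul_right_cancel (mul_right_cancel (h2.trans h4.symm)))]
  have s2 : {p : K × K | p.1 < p.2 ∧ b p.2 * (x p.2)⁻¹ * x p.1 * a p.1 = c}.Subsingleton := by
    rintro ⟨i, j⟩ ⟨h1, h2⟩ ⟨i', j'⟩ ⟨h3, h4⟩
    obtain rfl : j = j' := tri (R := fun j j' => ∃ i i', i < j ∧ i' < j' ∧
      b j * (x j)⁻¹ * x i * a i = b j' * (x j')⁻¹ * x i' * a i')
      (fun _ _ ⟨j, j', e1, e2, e3⟩ => ⟨j', j, e2, e1, e3.symm⟩)
      (fun j j' hj ⟨i, i', e1, e2, e3⟩ => hx j' (by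
        have : x j' = x i' * a i' * (b j * (x j)⁻¹ * x i * a i)⁻¹ * b j' := by
          rw [e3]
          group
        rw [this]
        exact mul_mem (mul_mem (mul_mem (mx e2) (ma e2.le))
          (inv_mem (mul_mem (mul_mem (mul_mem (mb hj.le) (inv_mem (mx hj))) (mx (e1.trans hj)))
            (ma (e1.trans hj).le)))) (mb le_rfl))) j j' ⟨i, i', h1, h3, h2.trans h4.symm⟩
    have h5 := h2.trans h4.symm
    simp only [mul_assoc, mul_right_inj] at h5
    rw [ia i i' h5]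
  refine (s1.countable.union s2.countable).mono fun p hp => ?_
  rcases lt_or_gt_of_ne hp.1 with h | h
  · exact Or.inr ⟨h, hp.2⟩
  · exact Or.inl ⟨h, hp.2⟩

omit [Group G] in
theorem bound [Infinite G] (hs : ¬ (#G).IsRegular) (F : G → Set G)
    (h : ∀ B : Set G, #B < #G → #{k : G × G | k.2 ∈ B ∧ k.1 ∈ F k.2} < #G) :
    ∃ l < #G, ∀ β, #(F β) ≤ l := by
  obtain ⟨_, _, ho⟩ := exists_ord_eq_type_lt G
  have hG := aleph0_le_mk G
  obtain ⟨S, hS, hS'⟩ := Order.exists_cof_eq G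
  have h1 : #S < #G := by
    rw [hS', ← Ordinal.cof_type, ← ho]
    exact not_le.1 fun h => hs ⟨hG, h⟩
  have e2 : ∀ k : G, #(Iic k) < #G := fun k => by
    rw [← Iio_insert]
    exact mk_insert_le.trans_lt (add_lt_of_lt hG (mk_Iio_lt k ho) (one_lt_aleph0.trans_le hG))
  by_contra hn
  push Not at hn
  choose β hβ using fun k => hn _ (e2 k)
  have h2 := h (β '' S) (mk_image_le.trans_lt h1)
  have h3 := small_iU (fun s : S => Iic s.1)
    (l := #{k : G × G | k.2 ∈ β '' S ∧ k.1 ∈ F k.2}) fun s => (hβ s).le.trans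
      (mk_le_of_injective (f := fun y => ⟨(y.1, β s), ⟨s, s.2, rfl⟩, y.2⟩)
        fun y z e => Subtype.ext (congrArg (fun t => t.1.1) e))
  have h4 : ⋃ s : S, Iic s.1 = univ := eq_univ_of_forall fun y => by
    obtain ⟨s, hs, h⟩ := hS y
    exact mem_iUnion.2 ⟨⟨s, hs⟩, h⟩
  rw [h4, mk_univ] at h3
  exact not_lt.2 h3 (mul_lt_of_lt hG h1 h2)

theorem ent_of [Infinite G] {A : Set G} (h : #A < #G) : ∃ E ∈ Ent G,
    (∀ x, (x, x) ∈ E) ∧ ∀ x, ∀ a ∈ A, (x, x * a) ∈ E := by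
  have hG := aleph0_le_mk G
  refine ⟨_, ⟨insert 1 (A ∪ A⁻¹), ?_, Or.inl rfl, ?_, subset_rfl⟩,
    fun x => ⟨1, Or.inl rfl, (mul_one x).symm⟩, fun x a ha => ⟨a, Or.inr (Or.inl ha), rfl⟩⟩
  · refine mk_insert_le.trans_lt (add_lt_of_lt hG ((mk_union_le _ _).trans_lt
      (add_lt_of_lt hG h ?_)) (one_lt_aleph0.trans_le hG))
    rw [← image_inv_eq_inv]
    exact mk_image_le.trans_lt h
  · ext x
    simp [or_comm]

theorem result (G : Type u) [Group G] [Infinite G] (h : Normal G) : (#G).IsRegular := by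
  by_contra hs
  have hG0 := aleph0_le_mk G
  have hG : ℵ₀ < #G := lt_of_le_of_ne hG0 fun e => hs (e ▸ isRegular_aleph0)
  obtain ⟨s, -, hs1⟩ := sidon hG (K := G ⊕ G) (by simp) 1 1
  let a : G → G := fun β => s (.inr β)
  let b : G → G := fun α => (s (.inl α))⁻¹
  obtain ⟨x, hx, hx1⟩ := sidon hG (K := G × G) (by simp) (fun k => a k.2) fun k => b k.1
  have hfib : ∀ c : G, {p : (G × G) × (G × G) |
      b p.2.1 * (x p.2)⁻¹ * x p.1 * a p.1.2 = c}.Countable := fun c => by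
    have h1 : {k : G × G | b k.1 * a k.2 = c}.Countable :=
      ((hs1 c).preimage_of_injOn (f := fun k : G × G => (Sum.inr k.2, Sum.inl k.1)) fun k _ l _ e => by
        simp only [Prod.mk.injEq, Sum.inr.injEq, Sum.inl.injEq] at e
        exact Prod.ext e.2 e.1).mono fun k hk => And.intro (by simp) (by simpa using hk)
    refine ((hx1 c).union (h1.image fun k => (k, k))).mono ?_
    rintro ⟨i, j⟩ hp
    by_cases e : i = j
    · subst e
      exact Or.inr ⟨i, by simpa using hp, rfl⟩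
    · exact Or.inl ⟨e, hp⟩
  obtain ⟨U, V, hU, hV, hUV⟩ := h (range fun k => x k * a k.2) (range fun k => x k * (b k.1)⁻¹)
    (by
      rintro E ⟨A, hA, -, -, hE⟩
      refine (mk_le_mk_of_subset (t := ⋃ c : A × A, (fun p => x p.1 * a p.1.2 * c.1.1) ''
        {p : (G × G) × (G × G) | b p.2.1 * (x p.2)⁻¹ * x p.1 * a p.1.2 = c.2.1 * c.1.1⁻¹})
        ?_).trans_lt ((small_iU _ (l := ℵ₀) fun c => mk_image_le.trans
          (le_aleph0_iff_set_countable.2 (hfib _))).trans_lt ?_)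
      · rintro y ⟨⟨_, ⟨i, rfl⟩, h1⟩, ⟨_, ⟨j, rfl⟩, h2⟩⟩
        obtain ⟨c, hc, h3⟩ := hE h1
        obtain ⟨d, hd, h4⟩ := hE h2
        refine mem_iUnion.2 ⟨(⟨c, hc⟩, ⟨d, hd⟩), (i, j), ?_, h3.symm⟩
        have h5 : x i * a i.2 * c = x j * (b j.1)⁻¹ * d := h3.symm.trans h4
        change b j.1 * (x j)⁻¹ * x i * a i.2 = d * c⁻¹
        rw [mul_assoc _ (x i), ← mul_inv_eq_iff_eq_mul.2 h5.symm]
        group
      · rw [mk_prod, lift_id]
        exact mul_lt_of_lt hG0 (mul_lt_of_lt hG0 hA hA) hG)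
  obtain ⟨l1, hl1, h1⟩ := bound hs (fun β => {α | x (α, β) ∉ U}) fun B hB => by
    obtain ⟨E, hE, -, hE'⟩ := ent_of (A := (fun β => (a β)⁻¹) '' B) (mk_image_le.trans_lt hB)
    refine lt_of_le_of_lt ?_ (hU E hE)
    rw [← mk_image_eq hx]
    refine mk_le_mk_of_subset ?_
    rintro _ ⟨k, hk, rfl⟩
    exact ⟨⟨_, ⟨k, rfl⟩, by simpa using hE' (x k * a k.2) _ ⟨_, hk.1, rfl⟩⟩, hk.2⟩
  obtain ⟨l2, hl2, h2⟩ := bound hs (fun α => {β | x (α, β) ∉ V}) fun B hB => by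
    obtain ⟨E, hE, -, hE'⟩ := ent_of (A := b '' B) (mk_image_le.trans_lt hB)
    refine lt_of_le_of_lt ?_ (hV E hE)
    rw [← mk_image_eq (hx.comp Prod.swap_injective)]
    refine mk_le_mk_of_subset ?_
    rintro _ ⟨k, hk, rfl⟩
    exact ⟨⟨_, ⟨k.swap, rfl⟩, by simpa using hE' (x k.swap * (b k.2)⁻¹) _ ⟨_, hk.1, rfl⟩⟩, hk.2⟩
  have h3 : #{k | x k ∈ U ∧ x k ∈ V} < #G := by
    obtain ⟨E, hE, hE', -⟩ := ent_of (A := (∅ : Set G)) (by simpa using aleph0_pos.trans hG)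
    exact (mk_le_of_injective (f := fun k => ⟨x k.1, ⟨_, k.2.1, hE' _⟩, ⟨_, k.2.2, hE' _⟩⟩)
      fun k l e => Subtype.ext (hx (congrArg Subtype.val e))).trans_lt (hUV E hE)
  set μ := #{k | x k ∈ U ∧ x k ∈ V}
  have h4 : max (l2 + μ) ℵ₀ < #G := max_lt (add_lt_of_lt hG0 hl2 h3) hG
  have h5 : Order.succ (max (l2 + μ) ℵ₀) < #G := lt_of_le_of_ne (Order.succ_le_of_lt h4)
    fun e => hs (e ▸ isRegular_succ (le_max_right _ _))
  obtain ⟨B, hB⟩ := le_mk_iff_exists_set.1 h5.le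
  obtain ⟨α, hα⟩ := avoid (s := ⋃ β : B, {α | x (α, β) ∉ U})
    ((small_iU _ fun β : B => h1 β).trans_lt (mul_lt_of_lt hG0 (hB ▸ h5) hl1))
  have h6 : B ⊆ {β | x (α, β) ∉ V} ∪ Prod.snd '' {k | x k ∈ U ∧ x k ∈ V} := fun β hβ => by
    by_cases hv : x (α, β) ∈ V
    · refine Or.inr ⟨(α, β), ⟨?_, hv⟩, rfl⟩
      by_contra hu
      exact hα (mem_iUnion.2 ⟨⟨β, hβ⟩, hu⟩)
    · exact Or.inl hv
  have h7 := (mk_le_mk_of_subset h6).trans ((mk_union_le _ _).trans
    (add_le_add (h2 α) mk_image_le))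
  rw [hB] at h7
  exact not_lt.2 (h7.trans (le_max_left _ ℵ₀)) (Order.lt_succ _)

end Pool.Agent.Results.MP_08c285_gt.Holds
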